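import Pool.Agent.TH294.GL.L1
import Pool.Agent.TH294.GL.One

/-!
# MP_18bc13_pr, Q1: `L¹` convergence of greedy lattice paths with heavy negative tails

For every dimension `d ≥ 2` the answer is yes: under (A+) and (A-) there is a finite constant `M`
with `E |M_n / n - M| → 0`. In dimension one the answer is no.
-/

set_option autoImplicit false

open MeasureTheory ProbabilityTheory Filter Topology
open scoped ENNReal

namespace Pool.Agent.Results.MP_18bc13_pr.L1Convergence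

/-- self-avoiding nearest-neighbour paths of length `n` from the origin of `ℤ^d` -/
abbrev Path (d n : ℕ) : Type := {p : Fin (n + 1) → (Fin d → ℤ) //
  p 0 = 0 ∧ Function.Injective p ∧ ∀ i : Fin n, ∑ j, |p i.succ j - p i.castSucc j| = 1}

/-- the greedy lattice path weight `M_n` (the origin is not counted) -/
noncomputable def M (d : ℕ) {Ω : Type} (X : (Fin d → ℤ) → Ω → ℝ) (n : ℕ) (ω : Ω) : ℝ :=
  ⨆ p : Path d n, ∑ i : Fin n, X (p.1 i.succ) ω

/-- i.i.d. weights with the two assumptions (A+) and (A-) -/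
structure Weights (d : ℕ) {Ω : Type} [MeasurableSpace Ω] (P : Measure Ω)
    (X : (Fin d → ℤ) → Ω → ℝ) : Prop where
  meas : ∀ v, Measurable (X v)
  indep : iIndepFun X P
  ident : ∀ v, IdentDistrib (X v) (X 0) P P
  plus : ∃ α : ℝ, 0 < α ∧
    ∫⁻ ω, ENNReal.ofReal ((max (X 0 ω) 0) ^ d *
      (max (Real.log (max (X 0 ω) 0)) 0) ^ ((d : ℝ) + α)) ∂P < ⊤
  minus : ∫⁻ t in Set.Ioi (0 : ℝ), P {ω | X 0 ω < -t} ^ (2 * d) < ⊤

open Pool.Agent.TH294.GL Pool.Agent.W844.GP in
theorem yes (d : ℕ) (hd : 2 ≤ d) (Ω : Type) [MeasurableSpace Ω] (P : Measure Ω)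
    [IsProbabilityMeasure P] (X : (Fin d → ℤ) → Ω → ℝ) (h : Weights d P X) :
    (∀ n : ℕ, Integrable (M d X n) P) ∧
    ∃ m : ℝ, Tendsto (fun n : ℕ => ∫⁻ ω, ENNReal.ofReal |M d X n ω / n - m| ∂P) atTop (𝓝 0) := by
  obtain ⟨hX, hind, hid, ⟨α, hα, hmom⟩, hminus⟩ := h
  set ν : Measure ℝ := P.map (X 0) with hν
  have : IsProbabilityMeasure ν := Measure.isProbabilityMeasure_map (hX 0).aemeasurable
  have hlaw : P.map (fun ω v => X v ω) = law ν d := by
    rw [hind.map_fun_eq_infinitePi_map hX]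
    unfold law
    congr 1
    funext v
    exact (hid v).map_eq
  have hmom' : ∫⁻ x, ENNReal.ofReal ((max x 0) ^ d *
      (max (Real.log (max x 0)) 0) ^ ((d : ℝ) + α)) ∂ν < ⊤ := by
    have hm : Measurable fun x : ℝ => ENNReal.ofReal ((max x 0) ^ d *
      (max (Real.log (max x 0)) 0) ^ ((d : ℝ) + α)) := by fun_prop
    rw [hν, lintegral_map hm (hX 0)]
    exact hmom
  have hminus' : ∫⁻ t in Set.Ioi (0 : ℝ), ν (Set.Iio (-t)) ^ (2 * d) < ⊤ := by
    refine lt_of_eq_of_lt ?_ hminus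
    refine lintegral_congr fun t => ?_
    rw [hν, Measure.map_apply (hX 0) measurableSet_Iio]
    rfl
  have hm : Measurable fun (ω : Ω) (v : Fin d → ℤ) => X v ω := measurable_pi_iff.mpr hX
  constructor
  · intro n
    have h1 := integ hd ν hα hmom' hminus' n
    have h3 : Measurable fun w : (Fin d → ℤ) → ℝ => ENNReal.ofReal |Mn w n| :=
      (measurable_norm.comp (meas_Mn n)).ennreal_ofReal
    rw [← hlaw, lintegral_map h3 hm] at h1
    refine ⟨((meas_Mn n).comp hm).aestronglyMeasurable, ?_⟩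
    rw [hasFiniteIntegral_iff_norm]
    exact h1
  · obtain ⟨m, h1⟩ := l1 hd ν hα hmom' hminus'
    refine ⟨m, h1.congr fun n => ?_⟩
    have h3 : Measurable fun w : (Fin d → ℤ) → ℝ => ENNReal.ofReal |Mn w n / n - m| :=
      (measurable_norm.comp (((meas_Mn n).div_const _).sub_const _)).ennreal_ofReal
    rw [← hlaw, lintegral_map h3 hm]
    rfl

open Pool.Agent.TH294.GL Pool.Agent.W844.GP in
theorem no : ∃ X : (Fin 1 → ℤ) → ((Fin 1 → ℤ) → ℝ) → ℝ,
    ∃ (P : Measure ((Fin 1 → ℤ) → ℝ)), IsProbabilityMeasure P ∧ Weights 1 P X ∧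
    ∀ m : ℝ, ¬ Tendsto (fun n : ℕ => ∫⁻ ω, ENNReal.ofReal |M 1 X n ω / n - m| ∂P)
      atTop (𝓝 0) := by
  refine ⟨fun v ω => ω v, law nu1 1, inferInstance, ⟨fun v => measurable_pi_apply v, ?_, ?_, ?_,
    ?_⟩, fun m => no_limit m⟩
  · exact iIndepFun_infinitePi (P := fun _ : (Fin 1 → ℤ) => nu1) (X := fun _ => id)
      (fun _ => measurable_id)
  · intro v
    refine ⟨(measurable_pi_apply v).aemeasurable, (measurable_pi_apply 0).aemeasurable, ?_⟩
    have h : ∀ v : Fin 1 → ℤ, (law nu1 1).map (fun ω => ω v) = nu1 := fun v =>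
      (measurePreserving_eval_infinitePi (fun _ : (Fin 1 → ℤ) => nu1) v).map_eq
    rw [h v, h 0]
  · refine ⟨1, one_pos, ?_⟩
    have hm : Measurable fun x : ℝ => ENNReal.ofReal ((max x 0) ^ 1 *
      (max (Real.log (max x 0)) 0) ^ (((1 : ℕ) : ℝ) + 1)) := by fun_prop
    have h := (measurePreserving_eval_infinitePi (fun _ : (Fin 1 → ℤ) => nu1) 0).lintegral_comp hm
    exact lt_of_eq_of_lt h nu1_aplus
  · refine lt_of_eq_of_lt ?_ nu1_aminus
    refine lintegral_congr fun t => ?_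
    congr 1
    exact law_eval nu1 0 measurableSet_Iio

/-- **Q1 of MP_18bc13_pr.** For all `d ≥ 2` and all i.i.d. weights with (A+) and (A-) the variables
`M_n` are integrable and there is a finite constant `m` with `E |M_n / n - m| → 0`; for `d = 1`
there are i.i.d. weights with (A+) and (A-) for which there is no such constant. -/
theorem result :
    (∀ d : ℕ, 2 ≤ d → ∀ (Ω : Type) [MeasurableSpace Ω] (P : Measure Ω) [IsProbabilityMeasure P]
      (X : (Fin d → ℤ) → Ω → ℝ), Weights d P X →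
      (∀ n : ℕ, Integrable (M d X n) P) ∧
      ∃ m : ℝ, Tendsto (fun n : ℕ => ∫⁻ ω, ENNReal.ofReal |M d X n ω / n - m| ∂P)
        atTop (𝓝 0)) ∧
    (∃ (Ω : Type) (_ : MeasurableSpace Ω) (P : Measure Ω) (_ : IsProbabilityMeasure P)
      (X : (Fin 1 → ℤ) → Ω → ℝ), Weights 1 P X ∧
      ∀ m : ℝ, ¬ Tendsto (fun n : ℕ => ∫⁻ ω, ENNReal.ofReal |M 1 X n ω / n - m| ∂P)
        atTop (𝓝 0)) := by
  refine ⟨fun d hd Ω _ P _ X h => yes d hd Ω P X h, ?_⟩
  obtain ⟨X, P, hP, h1, h2⟩ := no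
  exact ⟨_, _, P, hP, X, h1, h2⟩

end Pool.Agent.Results.MP_18bc13_pr.L1Convergence
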